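import Pool.Agent.NL.StmtsM

/-!
# NLO, row LOW: the points of `C` are `ℓ₁` modulo `X` and the other points
-/

set_option autoImplicit false

open MeasureTheory Filter Topology Set

noncomputable section

namespace Pool.Agent.NL.H8

section

variable {X : Type} [NormedAddCommGroup X] [NormedSpace ℝ X]

theorem rho_nonneg (Ψ : X →ₗᵢ[ℝ] Z) (z : Z) : 0 ≤ rho Ψ z := Metric.infDist_nonneg

theorem rho_smul_ge (Ψ : X →ₗᵢ[ℝ] Z) (z : Z) (c a : ℝ) (hc : c ≠ 0) (h : a ≤ rho Ψ z) :
    |c| * a ≤ rho Ψ (c • z) := by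
  unfold rho
  refine (Metric.le_infDist ⟨Ψ 0, mem_range_self _⟩).2 ?_
  rintro _ ⟨y, rfl⟩
  have h1 : c • z - Ψ y = c • (z - Ψ (c⁻¹ • y)) := by
    rw [smul_sub, map_smul, smul_smul, mul_inv_cancel₀ hc, one_smul]
  rw [dist_eq_norm, h1, norm_smul, Real.norm_eq_abs]
  refine mul_le_mul_of_nonneg_left (h.trans ?_) (abs_nonneg c)
  rw [← dist_eq_norm]
  exact Metric.infDist_le_dist_of_mem (mem_range_self _)

/-- vectors of one sign -/
theorem one_sign (G : ℝ → Z) (Ψ : X →ₗᵢ[ℝ] Z) (C : Finset ℝ) (a : ℝ)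
    (hR : ∀ p : ℝ →₀ ℝ, p.support ⊆ C → Pb p → a ≤ rho Ψ (V G p)) (e : ℝ) (he : e * e = 1)
    (q : ℝ →₀ ℝ) (hq : q.support ⊆ C) (hpos : ∀ x, 0 ≤ e * q x) :
    a * ∑ x ∈ C, |q x| ≤ rho Ψ (V G q) := by
  have he0 : e ≠ 0 := by
    rintro rfl
    simp at he
  have habs : |e| = 1 := by
    have h1 : |e| * |e| = 1 := by rw [← abs_mul, he, abs_one]
    nlinarith [abs_nonneg e]
  have habsq : ∀ x, |q x| = e * q x := by
    intro x
    have h1 : |e * q x| = e * q x := abs_of_nonneg (hpos x)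
    rw [abs_mul, habs, one_mul] at h1
    exact h1
  set c : ℝ := ∑ x ∈ C, e * q x with hc
  have hsum : ∑ x ∈ C, |q x| = c := Finset.sum_congr rfl fun x _ => habsq x
  rw [hsum]
  have hc0 : 0 ≤ c := Finset.sum_nonneg fun x _ => hpos x
  rcases hc0.eq_or_lt with h0 | h0
  · rw [← h0, mul_zero]
    exact rho_nonneg _ _
  · set p : ℝ →₀ ℝ := (e / c) • q with hp
    have hsupp : p.support ⊆ C := (Finsupp.support_smul).trans hq
    have hPb : Pb p := by
      refine ⟨fun x => ?_, ?_⟩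
      · rw [hp, Finsupp.smul_apply, smul_eq_mul, div_mul_eq_mul_div]
        exact div_nonneg (hpos x) h0.le
      · rw [Finsupp.sum_of_support_subset p hsupp _ (fun _ _ => rfl)]
        have h2 : ∀ x ∈ C, p x = e * q x / c := by
          intro x _
          rw [hp, Finsupp.smul_apply, smul_eq_mul, div_mul_eq_mul_div]
        rw [Finset.sum_congr rfl h2, ← Finset.sum_div, ← hc, div_self h0.ne']
    have h3 := hR p hsupp hPb
    have h4 : q = (c * e) • p := by
      rw [hp, smul_smul]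
      have : c * e * (e / c) = 1 := by
        field_simp
        nlinarith
      rw [this, one_smul]
    have h5 : V G q = (c * e) • V G p := by
      conv_lhs => rw [h4]
      rw [map_smul]
    have h6 := rho_smul_ge Ψ (V G p) (c * e) a (mul_ne_zero h0.ne' he0) h3
    rw [abs_mul, habs, mul_one, abs_of_pos h0] at h6
    rw [h5, mul_comm a c]
    exact h6

end

/-- row LOW -/
theorem low (hREM : RemStmt) (hRCN : RcnStmt) : LowStmt := by
  classical
  intro X _ _ f F G Ψ hcrv W hgood C hC a ha hnR b hb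
  have hR := (hRCN X G Ψ a C hnR).1
  set q1 : ℝ →₀ ℝ := b.filter fun x => x ∈ C ∧ 0 < b x with hq1
  set q2 : ℝ →₀ ℝ := b.filter fun x => x ∈ C ∧ b x < 0 with hq2
  have r1 : rho Ψ (V G q1) ≤ rho Ψ (V G b) := hREM X f F G Ψ hcrv W hgood b hb _
  have r2 : rho Ψ (V G q2) ≤ rho Ψ (V G b) := hREM X f F G Ψ hcrv W hgood b hb _
  have s1 : a * ∑ x ∈ C, |q1 x| ≤ rho Ψ (V G q1) := by
    refine one_sign G Ψ C a hR 1 (by norm_num) q1 ?_ ?_
    · intro x hx
      rw [hq1, Finsupp.support_filter, Finset.mem_filter] at hx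
      exact hx.2.1
    · intro x
      rw [hq1, Finsupp.filter_apply, one_mul]
      split_ifs with h
      · exact h.2.le
      · exact le_rfl
  have s2 : a * ∑ x ∈ C, |q2 x| ≤ rho Ψ (V G q2) := by
    refine one_sign G Ψ C a hR (-1) (by norm_num) q2 ?_ ?_
    · intro x hx
      rw [hq2, Finsupp.support_filter, Finset.mem_filter] at hx
      exact hx.2.1
    · intro x
      rw [hq2, Finsupp.filter_apply]
      split_ifs with h
      · linarith [h.2]
      · norm_num
  have h3 : ∑ x ∈ C, |b x| = ∑ x ∈ C, |q1 x| + ∑ x ∈ C, |q2 x| := by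
    rw [← Finset.sum_add_distrib]
    refine Finset.sum_congr rfl fun x hx => ?_
    rw [hq1, hq2, Finsupp.filter_apply, Finsupp.filter_apply]
    rcases lt_trichotomy (b x) 0 with h | h | h
    · rw [if_neg (by rintro ⟨-, h'⟩; linarith), if_pos ⟨hx, h⟩, abs_zero, zero_add]
    · rw [if_neg (by rintro ⟨-, h'⟩; linarith), if_neg (by rintro ⟨-, h'⟩; linarith), h]
      simp
    · rw [if_pos ⟨hx, h⟩, if_neg (by rintro ⟨-, h'⟩; linarith), abs_zero, add_zero]
  rw [h3]
  nlinarith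

end Pool.Agent.NL.H8
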