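import Pool.Agent.NL.StmtsM

/-!
# NLO, row DIC: the dichotomy
-/

set_option autoImplicit false

open MeasureTheory Filter Topology Set

noncomputable section

namespace Pool.Agent.NL.H8

/-- row DIC -/
theorem dic (hPOS : PosStmt) (hGOO : GooStmt) (hGND : GndStmt) (hLEB : LebStmt)
    (hDNB : DnbStmt) : DicStmt := by
  intro X _ _ _ _ f F G Ψ hcrv hnd
  by_cases h2 : ∃ a : ℝ, 0 < a ∧ ∃ x : ℝ, Gn G Ψ {x} ∧ ¬ Rch G Ψ a {x}
  · exact Or.inr h2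
  · left
    push Not at h2
    obtain ⟨δ, hδ, A₀, hA₀, hv, hrho⟩ := hPOS X f F G Ψ hcrv hnd
    have hG0 : Gn G Ψ ∅ := hGOO X f F G Ψ hcrv
    have hG1 : ∀ᵐ x : ℝ, Gn G Ψ {x} := by
      filter_upwards [(hGND X G Ψ ∅ hG0).2] with x hx
      simpa using hx
    have hL : ∀ᵐ x : ℝ, x ∈ A₀ → A₀ ∈ dens x := hLEB.2 A₀ hA₀
    have hboth : ∀ᵐ x : ℝ, Gn G Ψ {x} ∧ (x ∈ A₀ → A₀ ∈ dens x) := hG1.and hL
    refine ⟨δ, hδ, {x | x ∈ A₀ ∧ Gn G Ψ {x} ∧ A₀ ∈ dens x}, ?_, ?_⟩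
    · by_contra hcon
      rw [not_nonempty_iff_eq_empty] at hcon
      apply hv
      have h3 : ∀ᵐ x : ℝ, x ∉ A₀ := by
        filter_upwards [hboth] with x hx hxA
        have : x ∈ ({x | x ∈ A₀ ∧ Gn G Ψ {x} ∧ A₀ ∈ dens x} : Set ℝ) := ⟨hxA, hx.1, hx.2 hxA⟩
        rw [hcon] at this
        exact this
      exact measure_eq_zero_iff_ae_notMem.2 h3
    · rintro x ⟨hxA, hxG, hxd⟩
      refine ⟨hxG, ?_, hrho x hxA, fun a ha => h2 a ha x hxG⟩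
      have h4 := hDNB.2 _ hboth x
      filter_upwards [hxd, h4] with y hy hy2
      exact ⟨hy, hy2.1, hy2.2 hy⟩

end Pool.Agent.NL.H8
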