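import Pool.Agent.NL.StmtsM

/-!
# NLO, row NRM: finitely many coordinates are almost norming on a finite dimensional subspace
-/

set_option autoImplicit false

open MeasureTheory Filter Topology Set

noncomputable section

namespace Pool.Agent.NL.H8

/-- row NRM -/
theorem nrm : NrmStmt := by
  intro E _ η hη
  have h1 : (0:ℝ) < 1 + η := by linarith
  have : ProperSpace E := FiniteDimensional.proper_real E
  have hcpt : IsCompact (Metric.sphere (0 : E) 1) := isCompact_sphere 0 1
  have hcont : ∀ k : ℕ, Continuous fun z : E => (z : Z) k := by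
    intro k
    have h2 : Continuous fun z : Z => z k := by
      refine LipschitzWith.continuous (K := 1) ?_
      refine LipschitzWith.of_dist_le_mul fun x y => ?_
      have := BoundedContinuousFunction.dist_coe_le_dist (f := x) (g := y) k
      simpa using this
    exact h2.comp continuous_subtype_val
  have hopen : ∀ k : ℕ, IsOpen {z : E | 1 < (1 + η) * |(z : Z) k|} := by
    intro k
    exact isOpen_lt continuous_const (continuous_const.mul (hcont k).abs)
  have hcov : Metric.sphere (0 : E) 1 ⊆ ⋃ k, {z : E | 1 < (1 + η) * |(z : Z) k|} := by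
    intro z hz
    rw [mem_iUnion]
    by_contra hcon
    push Not at hcon
    have hz1 : ‖(z : Z)‖ = 1 := by
      have h := Metric.mem_sphere.1 hz
      rw [Subtype.dist_eq, ZeroMemClass.coe_zero, dist_zero_right] at h
      exact h
    have hle : ‖(z : Z)‖ ≤ 1 / (1 + η) := by
      refine (BoundedContinuousFunction.norm_le (by positivity)).2 fun k => ?_
      have h3 := hcon k
      rw [mem_ofPred_eq, not_lt] at h3
      rw [Real.norm_eq_abs, le_div_iff₀ h1]
      linarith
    rw [hz1, le_div_iff₀ h1] at hle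
    linarith
  obtain ⟨t, ht⟩ := hcpt.elim_finite_subcover _ hopen hcov
  refine ⟨insert 0 t, fun z hz => ?_⟩
  by_cases hz0 : z = 0
  · refine ⟨0, Finset.mem_insert_self _ _, ?_⟩
    rw [hz0, norm_zero]
    positivity
  · have hn : 0 < ‖z‖ := norm_pos_iff.2 hz0
    have hmem : (‖z‖⁻¹ • (⟨z, hz⟩ : E)) ∈ Metric.sphere (0 : E) 1 := by
      rw [Metric.mem_sphere, Subtype.dist_eq, ZeroMemClass.coe_zero, dist_zero_right]
      have h8 : ((‖z‖⁻¹ • (⟨z, hz⟩ : E) : E) : Z) = ‖z‖⁻¹ • z := rfl
      rw [h8, norm_smul, norm_inv, norm_norm]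
      exact inv_mul_cancel₀ hn.ne'
    have h4 := ht hmem
    rw [mem_iUnion₂] at h4
    obtain ⟨k, hk, h5⟩ := h4
    refine ⟨k, Finset.mem_insert_of_mem hk, ?_⟩
    rw [mem_ofPred_eq] at h5
    have h6 : ((‖z‖⁻¹ • (⟨z, hz⟩ : E) : E) : Z) k = ‖z‖⁻¹ * z k := rfl
    rw [h6, abs_mul, abs_inv, abs_norm] at h5
    have h7 : (1 + η) * (‖z‖⁻¹ * |z k|) = ‖z‖⁻¹ * ((1 + η) * |z k|) := by ring
    rw [h7, ← div_eq_inv_mul, lt_div_iff₀ hn, one_mul] at h5
    exact h5.le

end Pool.Agent.NL.H8
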